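import Mathlib
import Pool.Agent.H.MP_96deef_nt.A

set_option autoImplicit false

namespace Pool.Agent.Results.MP_96deef_nt.Three

open PowerSeries

/-- the coefficient of `x ^ n` in `(1 - x) ^ (-m)` times the product of the `(1 - x ^ 2 ^ i) ^ (-m)` -/
noncomputable def c (m n : ℕ) : ℤ :=
  coeff n ((PowerSeries.mk fun _ : ℕ => (1 : ℤ)) ^ m * ∏ i ∈ Finset.range (n + 1),
    (PowerSeries.mk fun j : ℕ => if 2 ^ i ∣ j then (1 : ℤ) else 0) ^ m)

theorem result : ∃ m : ℕ, 0 < m ∧ ∀ n : ℕ, 0 < n → ∃ (a : ℕ) (w : ℤ), c m n = 2 ^ a * w ∧ Odd w ∧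
    (emultiplicity 2 (w - 1) = 1 ∨ emultiplicity 2 (w - 1) = 2) := by
  refine ⟨3, by norm_num, fun n hn => ?_⟩
  have e : (PowerSeries.mk fun _ : ℕ => (1 : ℤ)) = Pool.Agent.Lib.helper11.Mahler.geo ℤ 1 := by
    ext j
    simp [Pool.Agent.Lib.helper11.Mahler.geo]
  obtain ⟨v, hv, h⟩ := Pool.Agent.H.MP_96deef_nt.main n hn
  have h1 : ((c 3 n : ℤ) : ZMod 64) = ((v : ℤ) : ZMod 64) := by
    rw [c, e, Int.cast_natCast]
    exact h
  rw [ZMod.intCast_eq_intCast_iff_dvd_sub] at h1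
  have l1 : ∀ w : ℤ, w % 4 = 3 → Odd w ∧
      (emultiplicity 2 (w - 1) = 1 ∨ emultiplicity 2 (w - 1) = 2) := fun w hw =>
    ⟨Int.odd_iff.mpr (by omega), .inl (emultiplicity_eq_of_dvd_of_not_dvd (k := 1)
      (by norm_num; omega) (by norm_num; omega))⟩
  have l2 : ∀ w : ℤ, w % 8 = 5 → Odd w ∧
      (emultiplicity 2 (w - 1) = 1 ∨ emultiplicity 2 (w - 1) = 2) := fun w hw =>
    ⟨Int.odd_iff.mpr (by omega), .inr (emultiplicity_eq_of_dvd_of_not_dvd (k := 2)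
      (by norm_num; omega) (by norm_num; omega))⟩
  generalize c 3 n = x at *
  have h2 : x % 8 = 6 ∨ x % 16 = 10 ∨ x % 32 = 24 ∨ x % 64 = 40 := by
    simp only [Pool.Agent.H.MP_96deef_nt.V, List.mem_cons, List.not_mem_nil, or_false] at hv
    push_cast at h1
    omega
  rcases h2 with h2 | h2 | h2 | h2
  · exact ⟨1, x / 2, by omega, l1 _ (by omega)⟩
  · exact ⟨1, x / 2, by omega, l2 _ (by omega)⟩
  · exact ⟨3, x / 8, by omega, l1 _ (by omega)⟩
  · exact ⟨3, x / 8, by omega, l2 _ (by omega)⟩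

end Pool.Agent.Results.MP_96deef_nt.Three
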